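import Pool.Agent.Helper66.HT.Inv

/-!
# Hadwiger's covering conjecture for bodies in `ℝ³` with a half-turn symmetry

Let `K` be a convex body in `ℝ³` which is mapped to itself by an affine half-turn `g` about a line
`A`, orthogonal or skew. If `K` is strictly convex, or only strictly convex at the points of its
shadow boundary in the direction of `A`, then `K` is covered by eight translates of its interior.

Sketch of the proof. Let `M` be the shadow, a planar convex body with centre `0`, and `f` the height
of the points of `K` over the boundary of `M`, an even function. Take a maximum point `t` and a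
minimum point `b` of `f` with the smallest `|det (t, b)| > 0`, and coordinates with `t = (1, 0)`,
`b = (0, 1)`, `f(t) = 1`, `f(b) = 0`. The directions are `(0, 0, ±1)` for the points over the interior
of `M`, `(∓1, 0, -h)`, `(0, ∓1, h')`, and `(∓1, ∓1, 0)` or `(∓1, ±1, 0)`. The last pair illuminates
the points over one of the two arcs between `±t` and `±b`. So it is enough to find `h, h'` such that
the second and third pair illuminate the points over the first arc, or those over the second arc.
One of the arcs has `|x| ≤ 1`. If it is not illuminated for any `h` in `[0, 1]`, `h' = 1 - h`, then by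
compactness and connectedness there are an `h` and points `v`, `w` over this arc, which are not
illuminated because of an upper supporting plane of `K` at `v` and because of a lower one at `w`.
Comparing the supporting planes it is shown that then the points over the other arc are illuminated
by these directions for `1 - h` and `h`.
-/

set_option autoImplicit false

namespace Pool.Agent.Results.MP_eba1ef_gt.HalfTurns

/-- three-dimensional Euclidean space -/
abbrev E3 : Type := EuclideanSpace ℝ (Fin 3)

/-- the affine self-map `x ↦ M x + b` of `ℝ³` -/
noncomputable def aff (M : Matrix (Fin 3) (Fin 3) ℝ) (b x : E3) : E3 :=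
  WithLp.toLp 2 (M.mulVec (WithLp.ofLp x)) + b

/-- Let `K` be a convex body in `ℝ³` with an affine symmetry `g x = M x + b` which is a half-turn
(`g ∘ g = id`, `g ≠ id`, `det M > 0`). Let `K` be strictly convex at the points of the shadow boundary
in the direction of the axis: if `p` is a point of `K` such that the line through `p` parallel to the
axis does not meet the interior of `K`, then no boundary segment of `K` has the end point `p`. Then
`K` is covered by at most eight translates of its interior. -/
theorem result (K : Set E3) (hK : Convex ℝ K) (hc : IsCompact K) (hint : (interior K).Nonempty)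
    (M : Matrix (Fin 3) (Fin 3) ℝ) (b : E3) (hg : aff M b '' K = K)
    (hinv : ∀ x, aff M b (aff M b x) = x) (hne : ∃ x, aff M b x ≠ x) (hdet : 0 < M.det)
    (hS : ∀ d : E3, aff M 0 d = d → d ≠ 0 → ∀ p ∈ K, (∀ r : ℝ, p + r • d ∉ interior K) →
      ∀ q ∈ K, q ≠ p → openSegment ℝ p q ⊆ interior K) :
    ∃ T : Finset E3, T.card ≤ 2 ^ 3 ∧ K ⊆ ⋃ t ∈ T, (fun x => t + x) '' interior K := by
  let g : E3 →ᵃ[ℝ] E3 :=
    { toFun := aff M b
      linear := Matrix.toEuclideanLin M
      map_vadd' := fun p v => by
        simp only [aff, vadd_eq_add, Matrix.toLpLin_apply]
        rw [WithLp.ofLp_add, Matrix.mulVec_add, WithLp.toLp_add]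
        abel }
  have hlin : LinearMap.det g.linear = M.det := by
    change LinearMap.det (Matrix.toLin (PiLp.basisFun 2 ℝ (Fin 3)) (PiLp.basisFun 2 ℝ (Fin 3)) M) =
      M.det
    rw [LinearMap.det_toLin]
  refine Pool.Agent.Helper66.HT.cov_involution (by simp) hK hc hint g hg ?_ hinv hne ?_
  · rw [hlin]
    exact hdet
  · intro d hd
    refine hS d ?_
    rw [← hd]
    change aff M 0 (g.linear d) = g.linear d
    have h1 : ∀ v, aff M 0 v = g.linear v := fun v => by
      simp only [aff, add_zero]
      rfl
    rw [h1, hd, hd]

end Pool.Agent.Results.MP_eba1ef_gt.HalfTurns
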