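import Pool.Agent.Helper7.RP.Low2
import Pool.Agent.Helper7.RP.Up

set_option autoImplicit false

/-!
# MP_eba1ef_gt: the covering conjecture for random polytopes

Let `X₁, …, X_N` be independent random vectors in `ℝ^d`, each with a distribution which is
invariant under the linear isometries; the distributions may be different (Gaussian vectors,
uniform points in balls or on spheres, beta distributions, arbitrary radii, …), and there may be any
number `N` of them. Let `K` be their convex hull or, more generally, the convex hull of the points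
`g X_i`, where `g` runs over a set `Γ` of at most `exp(c d)` linear isometries.

*Upper bound.* For every `q > √2` there is `c > 0` such that for all large `d`, all `N` and all
such vectors, with probability at least `1 - exp(-exp(c d))` the polytope `K`, if it has
interior points, is covered by at most `q^d` translates of its interior. In particular
(`q = 2`) it satisfies the conjecture of Levi, Hadwiger, Gohberg and Markus.

*Lower bound.* The base `√2` is sharp. For every `q < √2` there are `c > 0` and `k` such that for
all large `d` and all `N ≤ q^d`: if the `N` points are uniformly distributed on the unit sphere, then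
with probability at least `1 - exp(-c d)` every covering of `K` by translates of its interior has
at least `N / k` translates.

Proof. Upper bound: the hull of the `M = q₁^d` longest points contains a ball with
radius almost `√(1 - q₁⁻²)` times the length `R` of the shortest one of them, while the other points
have length at most `R`; so their normal cones are contained in circular cones with half-angle
less than 45 degrees, and `poly(d) √2^d` directions illuminate all of them. The `M` longest points
are illuminated one by one. Lower bound: if `X_i` is illuminated by the direction `-w`, then the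
orthogonal projection of `X_i` to the hyperplane `w^⊥` is not a normal at `X_i`, that is,
some other `X_j` lies in the open half-space beyond it. For given `w` and `X_j` this
has probability about `2^{-d}`; these events can be treated as independent, since the helping
point `X_j` is lower than `X_i`; hence with high probability no direction illuminates more than `k`
of the points.
-/

namespace Pool.Agent.Results.MP_eba1ef_gt.RandomPolytopes

open MeasureTheory ProbabilityTheory Set

universe u

/-- Euclidean space of dimension `d` -/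
abbrev E (d : ℕ) : Type := EuclideanSpace ℝ (Fin d)

/-- the linear isometries of `ℝ^d` -/
abbrev Iso (d : ℕ) : Type := E d ≃ₗᵢ[ℝ] E d

/-- `K` is covered by at most `m` translates of its interior. -/
def CoveredBy {d : ℕ} (K : Set (E d)) (m : ℝ) : Prop :=
  ∃ T : Finset (E d), (T.card : ℝ) ≤ m ∧ K ⊆ ⋃ t ∈ T, (fun x => t + x) '' interior K

/-- The `X i` are independent random vectors, each with a distribution which is invariant under all
linear isometries. -/
structure Model {Ω : Type u} [MeasurableSpace Ω] (P : Measure Ω) {d N : ℕ}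
    (X : Fin N → Ω → E d) : Prop where
  /-- `P` is a probability measure -/
  prob : IsProbabilityMeasure P
  /-- the random vectors are measurable -/
  meas : ∀ i, Measurable (X i)
  /-- the random vectors are independent -/
  indep : iIndepFun X P
  /-- `g (X i)` has the same distribution as `X i` -/
  inv : ∀ i, ∀ g : Iso d, P.map (fun ω => g (X i ω)) = P.map (X i)

/-- The convex hull of the images of the points `x i` under the isometries in `Γ`. -/
def polytope {d N : ℕ} (Γ : Finset (Iso d)) (x : Fin N → E d) : Set (E d) :=
  convexHull ℝ {y | ∃ g ∈ Γ, ∃ i, y = g (x i)}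

open Pool.Agent.Helper7.RP Pool.Agent.K3h76.RB Pool.Agent.K3h76.SD in
/-- the distribution of the transferred vectors -/
lemma transfer {Ω : Type u} [MeasurableSpace Ω] (P : Measure Ω) [IsProbabilityMeasure P] {n N : ℕ}
    (e : E (n + 1) ≃ₗᵢ[ℝ] Fs n) (X : Fin N → Ω → E (n + 1)) (hX : ∀ i, Measurable (X i))
    (hind : iIndepFun X P) (hrot : ∀ i, ∀ g : Iso (n + 1), P.map (fun ω => g (X i ω)) = P.map (X i)) :
    (∀ i, IsProbabilityMeasure (P.map fun ω => e (X i ω))) ∧
    (∀ i, RotInv (P.map fun ω => e (X i ω))) ∧
    P.map (fun ω i => e (X i ω)) = Measure.pi fun i => P.map fun ω => e (X i ω) := by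
  have hm : ∀ i, Measurable fun ω => e (X i ω) := fun i => e.continuous.measurable.comp (hX i)
  refine ⟨fun i => Measure.isProbabilityMeasure_map (hm i).aemeasurable, fun i g => ?_, ?_⟩
  · rw [Measure.map_map g.continuous.measurable (hm i)]
    have h1 := hrot i (e.trans (g.trans e.symm))
    have h2 := congrArg (fun m => Measure.map e m) h1
    have hm2 : Measurable fun ω => (e.trans (g.trans e.symm)) (X i ω) :=
      (LinearIsometryEquiv.continuous _).measurable.comp (hX i)
    simp only at h2
    rw [Measure.map_map e.continuous.measurable hm2,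
      Measure.map_map e.continuous.measurable (hX i)] at h2
    have e1 : (⇑e ∘ fun ω => (e.trans (g.trans e.symm)) (X i ω)) = ⇑g ∘ fun ω => e (X i ω) := by
      ext1 ω
      simp
    rw [e1] at h2
    exact h2
  · have h1 := hind.comp (fun _ => e) (fun _ => e.continuous.measurable)
    have h2 := (iIndepFun_iff_map_fun_eq_pi_map (fun i => (hm i).aemeasurable)).1 h1
    exact h2

open Pool.Agent.Helper7.RP Pool.Agent.K3h76.RB Pool.Agent.K3h76.SD Pool.Agent.W396.Il in
/-- **Main theorem.** -/
theorem result :
    -- the upper bound
    (∀ q : ℝ, √2 < q → ∃ (c : ℝ) (d₀ : ℕ), 0 < c ∧ ∀ d : ℕ, d₀ ≤ d →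
      ∀ Γ : Finset (Iso d), (Γ.card : ℝ) ≤ Real.exp (c * d) →
      ∀ (N : ℕ) (Ω : Type u) [MeasurableSpace Ω] (P : Measure Ω) (X : Fin N → Ω → E d), Model P X →
        P {ω | (interior (polytope Γ fun i => X i ω)).Nonempty ∧
          ¬ CoveredBy (polytope Γ fun i => X i ω) (q ^ d)} ≤
            ENNReal.ofReal (Real.exp (-Real.exp (c * d)))) ∧
    -- the lower bound
    (∀ q : ℝ, 1 < q → q < √2 → ∃ (c : ℝ) (k d₀ : ℕ), 0 < c ∧ 1 ≤ k ∧ ∀ d : ℕ, d₀ ≤ d →
      ∀ (N : ℕ) (m : ℝ), (N : ℝ) ≤ q ^ d → m * k < N →
      ∀ (Ω : Type u) [MeasurableSpace Ω] (P : Measure Ω) (X : Fin N → Ω → E d), Model P X →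
        (∀ i, ∀ᵐ ω ∂P, ‖X i ω‖ = 1) →
        P {ω | CoveredBy (convexHull ℝ (range fun i => X i ω)) m} ≤
          ENNReal.ofReal (Real.exp (-(c * d)))) := by
  classical
  constructor
  · intro q hq
    obtain ⟨c, n₀, hc, hall⟩ := up_pi hq
    refine ⟨c, n₀ + 1, hc, fun d hd Γ hΓc N Ω _ P X ⟨hPp, hX, hind, hrot⟩ => ?_⟩
    obtain ⟨n, rfl⟩ : ∃ n, d = n + 1 := ⟨d - 1, by omega⟩
    rcases Γ.eq_empty_or_nonempty with rfl | hΓ
    · have : {ω | (interior (polytope ∅ fun i => X i ω)).Nonempty ∧
          ¬ CoveredBy (polytope ∅ fun i => X i ω) (q ^ (n + 1))} = ∅ := by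
        ext ω
        simp [polytope]
      rw [this, measure_empty]
      exact zero_le
    obtain ⟨e⟩ := exists_iso (E := E (n + 1)) (F := Fs n) (by
      rw [finrank_Fs, finrank_euclideanSpace_fin])
    obtain ⟨hp, hri, hpi⟩ := transfer P e X hX hind hrot
    set Γ' : Finset (Fs n ≃ₗᵢ[ℝ] Fs n) := Γ.image fun g => e.symm.trans (g.trans e) with hΓ'
    have hΓ'c : (Γ'.card : ℝ) ≤ Real.exp (c * ((n + 1 : ℕ) : ℝ)) := by
      refine le_trans ?_ hΓc
      exact_mod_cast Finset.card_image_le
    obtain ⟨Z, hZm, hZ, hcov⟩ := hall n (by omega) Γ' (hΓ.image _) hΓ'c (Fin N)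
      (fun i => P.map fun ω => e (X i ω)) hri
    have hmeas : Measurable fun ω (i : Fin N) => e (X i ω) :=
      measurable_pi_lambda _ fun i => e.continuous.measurable.comp (hX i)
    refine le_trans (measure_mono ?_) ((Measure.le_map_apply hmeas.aemeasurable Z).trans
      (by rw [hpi]; exact hZ))
    rintro ω ⟨h1, h2⟩
    show (fun i => e (X i ω)) ∈ Z
    by_contra hcon
    -- the transferred polytope
    have himg : (convexHull ℝ (pts Γ' (fun i => e (X i ω)) : Set (Fs n))) =
        e '' polytope Γ fun i => X i ω := by
      have h3 : (e '' polytope Γ fun i => X i ω) =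
          convexHull ℝ (e '' {y | ∃ g ∈ Γ, ∃ i, y = g (X i ω)}) := by
        have := LinearMap.image_convexHull (e.toLinearEquiv.toLinearMap)
          {y | ∃ g ∈ Γ, ∃ i, y = g (X i ω)}
        exact this
      rw [h3]
      congr 1
      ext y
      rw [Finset.mem_coe, pts, Finset.mem_image]
      constructor
      · rintro ⟨⟨g', i⟩, hg', rfl⟩
        rw [Finset.mem_product, hΓ', Finset.mem_image] at hg'
        obtain ⟨⟨g, hg, rfl⟩, -⟩ := hg'
        refine ⟨g (X i ω), ⟨g, hg, i, rfl⟩, ?_⟩
        simp
      · rintro ⟨_, ⟨g, hg, i, rfl⟩, rfl⟩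
        refine ⟨(e.symm.trans (g.trans e), i), ?_, ?_⟩
        · rw [Finset.mem_product, hΓ']
          exact ⟨Finset.mem_image_of_mem _ hg, Finset.mem_univ _⟩
        · simp
    have hint : (interior (convexHull ℝ (pts Γ' (fun i => e (X i ω)) : Set (Fs n)))).Nonempty := by
      rw [himg]
      exact int_image e h1
    obtain ⟨m, hm, hc'⟩ := hcov _ hcon hint
    rw [himg] at hc'
    obtain ⟨T, hT, hTc⟩ := cov_of_image e hc'
    exact h2 ⟨T, le_trans (by exact_mod_cast hT) hm, hTc⟩
  · intro q hq1 hq2
    obtain ⟨c, k, n₀, hc, hk, hall⟩ := low_pi hq1 hq2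
    refine ⟨c, k, n₀ + 1, hc, hk, fun d hd N m' hN hm' Ω _ P X ⟨hPp, hX, hind, hrot⟩ hunit => ?_⟩
    obtain ⟨n, rfl⟩ : ∃ n, d = n + 1 := ⟨d - 1, by omega⟩
    obtain ⟨e⟩ := exists_iso (E := E (n + 1)) (F := Fs n) (by
      rw [finrank_Fs, finrank_euclideanSpace_fin])
    obtain ⟨hp, hri, hpi⟩ := transfer P e X hX hind hrot
    have hmeas : Measurable fun ω (i : Fin N) => e (X i ω) :=
      measurable_pi_lambda _ fun i => e.continuous.measurable.comp (hX i)
    have hae : ∀ᵐ x ∂(Measure.pi fun i => P.map fun ω => e (X i ω)), ∀ i, ‖x i‖ = 1 := by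
      rw [← hpi, ae_map_iff hmeas.aemeasurable]
      · rw [ae_all_iff]
        intro i
        filter_upwards [hunit i] with ω hω
        rw [e.norm_map, hω]
      · have : {x : Fin N → Fs n | ∀ i, ‖x i‖ = 1} = ⋂ i, {x | ‖x i‖ = 1} := by
          ext x
          simp
        rw [this]
        exact MeasurableSet.iInter fun i =>
          measurableSet_eq_fun (measurable_pi_apply i).norm measurable_const
    obtain ⟨Z, hZ, hcov⟩ := hall n (by omega) (Fin N) (by rwa [Fintype.card_fin])
      (fun i => P.map fun ω => e (X i ω)) hri hae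
    refine le_trans (measure_mono ?_) ((Measure.le_map_apply hmeas.aemeasurable Z).trans
      (by rw [hpi]; exact hZ))
    rintro ω ⟨T, hTm, hT⟩
    have hTN : T.card * k < N := by
      have h0 : (T.card : ℝ) * k ≤ m' * k := mul_le_mul_of_nonneg_right hTm (Nat.cast_nonneg _)
      exact_mod_cast h0.trans_lt hm'
    show (fun i => e (X i ω)) ∈ Z
    by_contra hcon
    have himg : (convexHull ℝ (range fun i => e (X i ω))) =
        e '' convexHull ℝ (range fun i => X i ω) := by
      have h3 : (e '' convexHull ℝ (range fun i => X i ω)) =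
          convexHull ℝ (e '' range fun i => X i ω) :=
        LinearMap.image_convexHull (e.toLinearEquiv.toLinearMap) _
      rw [h3, ← range_comp]
      rfl
    have h4 := hcov _ hcon (T.image e) (by
      rw [himg]
      have h5 : interior (e '' convexHull ℝ (range fun i => X i ω)) =
          e '' interior (convexHull ℝ (range fun i => X i ω)) :=
        (e.toHomeomorph.image_interior _).symm
      rw [h5]
      rintro _ ⟨x, hx, rfl⟩
      have h6 := hT hx
      simp only [mem_iUnion] at h6 ⊢
      obtain ⟨t, ht, y, hy, rfl⟩ := h6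
      exact ⟨e t, Finset.mem_image_of_mem _ ht, e y, mem_image_of_mem _ hy, by simp⟩)
    rw [Fintype.card_fin] at h4
    have h7 : (T.image e).card * k ≤ T.card * k := Nat.mul_le_mul_right _ Finset.card_image_le
    omega

end Pool.Agent.Results.MP_eba1ef_gt.RandomPolytopes
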