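import Mathlib
import Pool.Agent.Helper31.L1.Num

set_option autoImplicit false

/-!
# MP_eba1ef_gt: unit balls of subspaces of `L_1`, polars of zonoids

Let `E` be an `n`-dimensional subspace of a space `L_1(ν; X)`, where `ν` is an arbitrary measure and
`X` is a normed space, and let `K` be its unit ball or, more generally, the set `‖x‖ + ℓ(x) ≤ 1` for a
linear functional `ℓ` with `|ℓ(x)| ≤ (1 - β) ‖x‖`, where `1/2 ≤ β ≤ 1`. For `X = ℝ` the bodies `K` are
the polar bodies of the `n`-dimensional zonoids `Z` with respect to the points of `(1 - β) Z`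
(the centre of symmetry of `Z` is the origin); examples are the unit balls of all
`n`-dimensional subspaces of `L_p`, `1 ≤ p ≤ 2`, e.g. all sections of cross-polytopes of arbitrary
dimension. The space `X` is assumed to be flat: for some `θ ≤ 1` and `ε > 0`,

`‖u + h‖ + ‖u - h‖ ≤ 2 ‖u‖ + 2 θ ‖h‖`     if `‖h‖ ≤ ε ‖u‖`.

This is true for `X = ℝ` with `θ = 0`, `ε = 1`. By convexity it is enough to have it for `‖h‖ = ε ‖u‖`, so
that it is true with some `θ < 1` and with `ε = 1` for all uniformly non-square spaces `X`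
(James), in particular for all uniformly convex ones, and with any `θ > 0` and a suitable
`ε(θ) > 0` if `X` is uniformly smooth.

**Theorem.** (1) `K` is covered by at most `23 (n+1)² bⁿ β⁻¹ n log (1 + 12 (48/(εβ))ⁿ ((n+1)!)²) + 1`
translates of its interior, where `b ≥ 1` is the root of `b = 1 + (θ + (1 - θ)/b)/β`. For unit balls
(`β = 1`) and `θ = 0` this is the golden ratio `1.618…`; and `b < 2` if and only if `β > (1 + θ)/2`.
(2) For all `θ`, `ε`, `β` with `β > (1 + θ)/2` fewer than `2ⁿ` translates suffice if `n ≥ n₀(θ, ε, β)`.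
(3) The unit ball of every `n`-dimensional subspace of `L_1` is covered by fewer than `2ⁿ` translates
of its interior if `n ≥ 120`.

The proof. By the minimax argument (greedy algorithm over a net) it suffices to find for each finite
family of points `y_j` of `K` with weights `τ_j` a translate of `(1 - δ) K` which contains a part `p` of
the total weight, `1/p` being about `bⁿ`. The norm of `y_j` is the integral of `‖y_j(ω)‖`. Choose
`ω` at random, with the distribution given by the shares `‖y_j(ω)‖ / ‖y_j‖` (weighted by `τ_j`); then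
the hyperplane `y(ω) = 0` (or a hyperplane containing this subspace) is tested: either it contains the
part `1 - σ` of the weight up to small errors, and then the induction on `n` is used in this hyperplane; or
for all `ω`, in an average sense, the part `σ` is far away from the hyperplanes. In that case
random translation vectors `x`, distributed uniformly in a multiple `t` of the unit ball, are good:
if `y_j(ω) ≠ 0` is large in comparison with `x(ω)`, then by the flatness of `X`, and since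
`x` and `-x` have the same distribution, the mean of `‖y_j(ω) - x(ω)‖` is at most
`‖y_j(ω)‖ + θ ‖x(ω)‖` instead of `‖y_j(ω)‖ + ‖x(ω)‖`. So, in mean, `‖y_j - x‖` is smaller than in
the triangle inequality, and the volume of the set of good vectors `x` is
the part `(β / (β + 1 - (1 - θ) σ))ⁿ` up to a polynomial factor. The two parts balance if
`1 - σ = 1/b`.
-/

namespace Pool.Agent.Results.MP_eba1ef_gt.SubspacesOfL1

open MeasureTheory

universe u v

/-- `K` is covered by at most `x` translates of its interior. -/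
def CoveredBy {V : Type*} [TopologicalSpace V] [Add V] (K : Set V) (x : ℝ) : Prop :=
  ∃ F : Finset V, (F.card : ℝ) ≤ x ∧ K ⊆ ⋃ t ∈ F, (fun y => t + y) '' interior K

/-- The norm of `X` has, on the scale `ε`, no kinks of size larger than `θ`. -/
def Flat (X : Type*) [NormedAddCommGroup X] (θ ε : ℝ) : Prop :=
  ∀ x h : X, ‖h‖ ≤ ε * ‖x‖ → ‖x + h‖ + ‖x - h‖ ≤ 2 * ‖x‖ + 2 * θ * ‖h‖

/-- `K` is the set `‖T x‖ + ℓ(x) ≤ 1`, where `T` is an injective linear map of `ℝⁿ` into a
space `L_1(ν; X)` and `ℓ` is a linear functional with `|ℓ(x)| ≤ (1 - β) ‖T x‖`; so `K` is the unit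
ball of a subspace of `L_1(ν; X)` if `β = 1`. -/
def L1Body (X : Type u) [NormedAddCommGroup X] [NormedSpace ℝ X] (β : ℝ) {n : ℕ}
    (K : Set (EuclideanSpace ℝ (Fin n))) : Prop :=
  ∃ (Ω : Type v) (_ : MeasurableSpace Ω) (ν : Measure Ω)
    (T : EuclideanSpace ℝ (Fin n) →ₗ[ℝ] Lp X 1 ν) (ℓ : EuclideanSpace ℝ (Fin n) →ₗ[ℝ] ℝ),
    Function.Injective T ∧ (∀ x, |ℓ x| ≤ (1 - β) * ‖T x‖) ∧ K = {x | ‖T x‖ + ℓ x ≤ 1}

open Pool.Agent.Helper31.L1 in
lemma dd_eq {e : ℝ} (n : ℕ) : dd e n = e ^ n / (48 ^ n * ((n + 1).factorial : ℝ) ^ 2) := by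
  induction n with
  | zero => simp [dd]
  | succ m ih =>
    rw [dd, ih, Nat.factorial_succ (m + 1)]
    have h1 : (0 : ℝ) < ((m + 1).factorial : ℝ) := by positivity
    have h2 : (0 : ℝ) < (m : ℝ) + 2 := by positivity
    push_cast
    field_simp
    ring

open Pool.Agent.Helper31.L1 in
/-- **Main theorem.** -/
theorem result :
    (∀ θ ε β b : ℝ, 0 ≤ θ → θ ≤ 1 → 0 < ε → ε ≤ 1 → 1 / 2 ≤ β → β ≤ 1 →
      1 ≤ b → b = 1 + (θ + (1 - θ) / b) / β →
      ∀ (X : Type u) [NormedAddCommGroup X] [NormedSpace ℝ X], Flat X θ ε →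
      ∀ (n : ℕ) (K : Set (EuclideanSpace ℝ (Fin n))), L1Body.{u, v} X β K →
        (Convex ℝ K ∧ IsCompact K ∧ (interior K).Nonempty) ∧
        CoveredBy K (23 * (n + 1) ^ 2 * b ^ n / β *
          (n * Real.log (1 + 12 * (48 / (ε * β)) ^ n * ((n + 1).factorial : ℝ) ^ 2)) + 1)) ∧
    (∀ θ ε β : ℝ, 0 ≤ θ → 0 < ε → ε ≤ 1 → (1 + θ) / 2 < β → β ≤ 1 →
      ∃ n₀ : ℕ, ∀ (X : Type u) [NormedAddCommGroup X] [NormedSpace ℝ X], Flat X θ ε →
      ∀ n ≥ n₀, ∀ K : Set (EuclideanSpace ℝ (Fin n)), L1Body.{u, v} X β K →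
        ∃ x < (2 : ℝ) ^ n, CoveredBy K x) ∧
    (∀ n ≥ 120, ∀ K : Set (EuclideanSpace ℝ (Fin n)), L1Body.{0, v} ℝ 1 K →
      ∃ x < (2 : ℝ) ^ n, CoveredBy K x) := by
  have key : ∀ θ ε β b : ℝ, 0 ≤ θ → θ ≤ 1 → 0 < ε → ε ≤ 1 → 1 / 2 ≤ β → β ≤ 1 →
      Base θ β b →
      ∀ (X : Type u) [NormedAddCommGroup X] [NormedSpace ℝ X], Flat X θ ε →
      ∀ (n : ℕ) (K : Set (EuclideanSpace ℝ (Fin n))), L1Body.{u, v} X β K →
        CoveredBy K (bound ε β b n) := by
    intro θ ε β b hθ0 hθ1 hε0 hε1 hβ hβ1 hB X _ _ hX n K hK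
    obtain ⟨Ω, _, ν, T, ℓ, hT, hℓ, rfl⟩ := hK
    exact cover_body hθ0 hθ1 hε0 hε1 hβ hβ1 hB hX ν T hT ℓ hℓ
  refine ⟨?_, ?_, ?_⟩
  · intro θ ε β b hθ0 hθ1 hε0 hε1 hβ hβ1 hb hb2 X _ _ hX n K hK
    refine ⟨?_, ?_⟩
    · obtain ⟨Ω, _, ν, T, ℓ, hT, hℓ, rfl⟩ := hK
      exact body_convex (by linarith) ν T hT ℓ hℓ
    · have h1 := key θ ε β b hθ0 hθ1 hε0 hε1 hβ hβ1 ⟨hb, hb2⟩ X hX n K hK
      have h2 : 12 / dd (ε * β) n = 12 * (48 / (ε * β)) ^ n * ((n + 1).factorial : ℝ) ^ 2 := by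
        have h3 : 0 < ε * β := by positivity
        rw [dd_eq, div_pow]
        have h4 : (0 : ℝ) < ((n + 1).factorial : ℝ) := by positivity
        field_simp
      rw [bound, h2] at h1
      exact h1
  · intro θ ε β hθ0 hε0 hε1 hβ hβ1
    obtain ⟨b, hb2, hB⟩ := exists_base hθ0 hβ1 hβ
    obtain ⟨n₀, hn₀⟩ := bound_lt hε0 hε1 (show 0 < β by linarith) hβ1 hB.1 hb2
    refine ⟨n₀, fun X _ _ hX n hn K hK => ⟨_, hn₀ n hn, ?_⟩⟩
    exact key θ ε β b hθ0 (by linarith) hε0 hε1 (by linarith) hβ1 hB X hX n K hK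
  · intro n hn K hK
    refine ⟨_, golden_lt hn, ?_⟩
    obtain ⟨Ω, _, ν, T, ℓ, hT, hℓ, rfl⟩ := hK
    refine cover_body le_rfl zero_le_one one_pos le_rfl (by norm_num) le_rfl golden_base ?_ ν T hT
      ℓ hℓ
    intro x h hxh
    simp only [Real.norm_eq_abs, one_mul] at hxh ⊢
    have h1 : |x + h| + |x - h| = 2 * |x| := by
      rcases abs_cases x with ⟨h1, h2⟩ | ⟨h1, h2⟩ <;> rcases abs_cases h with ⟨h3, h4⟩ | ⟨h3, h4⟩ <;>
        rcases abs_cases (x + h) with ⟨h5, h6⟩ | ⟨h5, h6⟩ <;>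
        rcases abs_cases (x - h) with ⟨h7, h8⟩ | ⟨h7, h8⟩ <;> linarith
    rw [h1]
    simp

end Pool.Agent.Results.MP_eba1ef_gt.SubspacesOfL1
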