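import Mathlib
import Pool.Agent.Helper31.Mon.Trans

set_option autoImplicit false

/-!
# MP_eba1ef_gt: unit balls of subspaces of uniformly monotone Banach function spaces

Let `ρ` be a function norm on a measurable space `Ω`, and `0 ≤ c ≤ 1`. We assume that `ρ` has the gain
`γ` in one of the following two senses:

(a) `ρ` is uniformly monotone on one scale: for some `δ`, if measurable `f, g ≥ 0` satisfy
    `ρ(g) ≥ (c/10) ρ(f + g)` then `ρ(f) ≤ (1 - δ) ρ(f + g)`; in this case let `γ = c δ / 10`.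
(b) `ρ ^ q` is superadditive for some finite `q`: `ρ(f)^q + ρ(g)^q ≤ ρ(f + g)^q` for all measurable
    `f, g ≥ 0`; in this case let `γ = (c/5)^q / q`.

All norms which are `q`-concave with the constant one satisfy (b), e.g. the norms of `L_q`, of the mixed
norm spaces `L_p(L_r)` with `p, r ≤ q`, and of the Orlicz spaces with `Φ(s t) ≤ s^q Φ(t)` for
`s ≥ 1`; all uniformly monotone norms satisfy (a). Let `E` be an `n`-dimensional subspace of the space
of `X`-valued functions with the norm `ρ(‖f(ω)‖)`, where `X` is a normed space such that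

`‖x + h‖ + ‖x - h‖ ≤ 2 ‖x‖ + (2 - c) ‖h‖`     if `‖h‖ ≤ ε ‖x‖`,

for some `ε > 0`. This is true for `X = ℝ` with `c = 1`, `ε = 1`, and with `ε = 1` and some `c > 0` for
all uniformly non-square spaces `X` (James). Let `K` be the unit ball of `E` or, more generally, the
set `‖x‖ + ℓ(x) ≤ 1` for a linear functional `ℓ` with `|ℓ(x)| ≤ (1 - β) ‖x‖`, where
`1/2 ≤ β ≤ 1`. Put `b = 1 + (1 - γ)/β` and `g = 2 - b`; so `g = γ` for the unit ball.

**Theorem.** (1) `K` is covered by at most `23 (n+1) bⁿ β⁻¹ n log (1 + 12 (48/(εβ))ⁿ ((n+1)!)²) + 1`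
translates of its interior.
(2) If `g > 0` and `n ≥ (20/g) log (20/(g ε))`, then fewer than `2ⁿ` translates suffice.
(3) So fewer than `2ⁿ` translates suffice for the unit balls of the `n`-dimensional subspaces of
all spaces `L_p(μ; L_1(ν))`, if `1 ≤ p ≤ q` and `n ≥ A log A`, `A = 20 q 5^q`.

Since every normed space is a subspace of a space `L_∞`, some condition like (a) or (b) with `q < ∞` is
necessary for such a result (the cube needs `2ⁿ` translates).

The proof. By the minimax argument (greedy algorithm over a net) it suffices to find for each finite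
family of points `y_j` of `K` with weights a translate of a set `(1 - η) K` which contains a part `p` of
the total weight, `1/p` being about `bⁿ`. If there is an `ω` for which the points `y_j` with small
`y_j(ω)` have a weight of at least `3/5` of the total weight, then the induction on `n` is used in a
hyperplane of `E` which contains the kernel of `y ↦ y(ω)`. Otherwise for every `k ∈ E` the mean value,
over the points `y_j`, of the norm of the restriction of `k` to the set `S_j` where `y_j(ω)` is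
not small is at least `(2/5) ‖k‖`, by the triangle inequality. On a part of `S_j` the addition of a
small multiple `t k` does not increase `‖y_j(ω)‖`, on the other part the subtraction does not, up to
the constant `c`; so by (a) or (b) the mean of `‖y_j + t k‖` and `‖y_j - t k‖` is at most
`‖y_j‖ + t (1 - γ)` in the mean over `j`. Therefore random translation vectors, distributed uniformly
in a multiple of the unit ball of `E`, are good.
-/

namespace Pool.Agent.Results.MP_eba1ef_gt.SubspacesOfLattices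

open MeasureTheory
open scoped ENNReal NNReal

universe u v

/-- `K` is covered by at most `x` translates of its interior. -/
def CoveredBy {V : Type*} [TopologicalSpace V] [Add V] (K : Set V) (x : ℝ) : Prop :=
  ∃ F : Finset V, (F.card : ℝ) ≤ x ∧ K ⊆ ⋃ t ∈ F, (fun y => t + y) '' interior K

/-- `ρ` is a function norm. -/
structure FunctionNorm {Ω : Type*} [MeasurableSpace Ω] (ρ : (Ω → ℝ≥0∞) → ℝ≥0∞) : Prop where
  mono : ∀ f g : Ω → ℝ≥0∞, (∀ ω, f ω ≤ g ω) → ρ f ≤ ρ g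
  add_le : ∀ f g : Ω → ℝ≥0∞, Measurable f → Measurable g →
    ρ (fun ω => f ω + g ω) ≤ ρ f + ρ g
  smul : ∀ (t : ℝ≥0) (f : Ω → ℝ≥0∞), Measurable f → ρ (fun ω => t * f ω) = t * ρ f

/-- The conditions (a) and (b) above: the gain `γ` of the norm `ρ`. -/
def Gain {Ω : Type*} [MeasurableSpace Ω] (ρ : (Ω → ℝ≥0∞) → ℝ≥0∞) (c γ : ℝ) : Prop :=
  (∃ δ : ℝ, 0 ≤ δ ∧ δ ≤ 1 ∧ γ = c * δ / 10 ∧
    ∀ f g : Ω → ℝ≥0∞, Measurable f → Measurable g →
      ENNReal.ofReal (c / 10) * ρ (fun ω => f ω + g ω) ≤ ρ g →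
      ρ f ≤ ENNReal.ofReal (1 - δ) * ρ (fun ω => f ω + g ω)) ∨
  (∃ q : ℕ, 1 ≤ q ∧ γ = (c / 5) ^ q / q ∧
    ∀ f g : Ω → ℝ≥0∞, Measurable f → Measurable g →
      ρ f ^ q + ρ g ^ q ≤ ρ (fun ω => f ω + g ω) ^ q)

/-- The condition on the space `X`. -/
def Flat (X : Type*) [NormedAddCommGroup X] (c ε : ℝ) : Prop :=
  ∀ x h : X, ‖h‖ ≤ ε * ‖x‖ → ‖x + h‖ + ‖x - h‖ ≤ 2 * ‖x‖ + (2 - c) * ‖h‖

/-- The norm `ρ(‖∑ xᵢ fᵢ‖)`. -/
noncomputable def functionNorm {Ω X : Type*} [NormedAddCommGroup X] [NormedSpace ℝ X]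
    (ρ : (Ω → ℝ≥0∞) → ℝ≥0∞) {n : ℕ} (f : Fin n → Ω → X) (x : EuclideanSpace ℝ (Fin n)) : ℝ≥0∞ :=
  ρ fun ω => ENNReal.ofReal ‖∑ i, x i • f i ω‖

/-- `K` is the set `N(x) + ℓ(x) ≤ 1`, where `N(x)` is the norm of the function `∑ xᵢ fᵢ`, finite, and
positive for `x ≠ 0`, and `ℓ` is a linear functional with `|ℓ(x)| ≤ (1 - β) N(x)`. So `K` is the unit
ball of the `n`-dimensional space spanned by the functions `fᵢ` if `β = 1`. -/
def LatticeBody (X : Type u) [NormedAddCommGroup X] [NormedSpace ℝ X] (c γ β : ℝ) {n : ℕ}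
    (K : Set (EuclideanSpace ℝ (Fin n))) : Prop :=
  ∃ (Ω : Type v) (_ : MeasurableSpace Ω) (ρ : (Ω → ℝ≥0∞) → ℝ≥0∞) (f : Fin n → Ω → X)
    (ℓ : EuclideanSpace ℝ (Fin n) →ₗ[ℝ] ℝ),
    FunctionNorm ρ ∧ Gain ρ c γ ∧ (∀ i, StronglyMeasurable (f i)) ∧
    (∀ x, functionNorm ρ f x ≠ ⊤) ∧ (∀ x, x ≠ 0 → functionNorm ρ f x ≠ 0) ∧
    (∀ x, |ℓ x| ≤ (1 - β) * (functionNorm ρ f x).toReal) ∧
    K = {x | (functionNorm ρ f x).toReal + ℓ x ≤ 1}

open Pool.Agent.Helper31.L1 in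
lemma dd_eq {e : ℝ} (n : ℕ) : dd e n = e ^ n / (48 ^ n * ((n + 1).factorial : ℝ) ^ 2) := by
  induction n with
  | zero => simp [dd]
  | succ m ih =>
    rw [dd, ih, Nat.factorial_succ (m + 1)]
    have h1 : (0 : ℝ) < ((m + 1).factorial : ℝ) := by positivity
    have h2 : (0 : ℝ) < (m : ℝ) + 2 := by positivity
    push_cast
    field_simp
    ring

lemma gain_le {q : ℕ} (hq : 1 ≤ q) {c : ℝ} (hc0 : 0 ≤ c) (hc1 : c ≤ 1) :
    (c / 5) ^ q / q ≤ 1 / 5 := by
  have hqr : (1 : ℝ) ≤ q := by exact_mod_cast hq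
  rw [div_le_iff₀ (by linarith)]
  calc (c / 5) ^ q ≤ (1 / 5) ^ q := by gcongr
    _ ≤ (1 / 5) ^ 1 := pow_le_pow_of_le_one (by norm_num) (by norm_num) hq
    _ ≤ 1 / 5 * q := by linarith

open Pool.Agent.Helper31.Mon in
lemma gain_conv {Ω : Type*} [MeasurableSpace Ω] {ρ : (Ω → ℝ≥0∞) → ℝ≥0∞} {c γ : ℝ} (hc0 : 0 ≤ c)
    (hc1 : c ≤ 1) (hρ : FN ρ) (h : Gain ρ c γ) :
    0 ≤ γ ∧ γ ≤ 1 / 5 ∧ Pool.Agent.Helper31.Mon.Gain ρ (c * (2 / 5)) γ := by
  rcases h with ⟨δ, hδ0, hδ1, rfl, h⟩ | ⟨q, hq, rfl, h⟩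
  · have h1 : c * δ ≤ 1 := mul_le_one₀ hc1 hδ0 hδ1
    refine ⟨by positivity, by linarith, ?_⟩
    have h2 := gain_scale (s := c * (2 / 5)) (by positivity) hδ0 hδ1 hρ (by
      rw [show c * (2 / 5) / 4 = c / 10 by ring]
      exact h)
    rw [show δ * (c * (2 / 5)) / 4 = c * δ / 10 by ring] at h2
    exact h2
  · refine ⟨by positivity, gain_le hq hc0 hc1, ?_⟩
    have h2 := gain_super hq hρ h (s := c * (2 / 5)) (by positivity)
    rw [show c * (2 / 5) / 2 = c / 5 by ring] at h2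
    exact h2

open Pool.Agent.Helper31.Mon in
open Pool.Agent.Helper31.L1 (dd) in
/-- **Main theorem.** -/
theorem result :
    (∀ c γ ε β : ℝ, 0 ≤ c → c ≤ 1 → 0 < ε → ε ≤ 1 → 1 / 2 ≤ β → β ≤ 1 →
      ∀ (X : Type u) [NormedAddCommGroup X] [NormedSpace ℝ X], Flat X c ε →
      ∀ (n : ℕ) (K : Set (EuclideanSpace ℝ (Fin n))), LatticeBody.{u, v} X c γ β K →
      ∀ b g : ℝ, b = 1 + (1 - γ) / β → g = 2 - b →
        (Convex ℝ K ∧ IsCompact K ∧ (interior K).Nonempty) ∧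
        CoveredBy K (23 * (n + 1) * b ^ n / β *
          (n * Real.log (1 + 12 * (48 / (ε * β)) ^ n * ((n + 1).factorial : ℝ) ^ 2)) + 1) ∧
        (0 < g → 20 / g * Real.log (20 / (g * ε)) ≤ n → ∃ x < (2 : ℝ) ^ n, CoveredBy K x)) ∧
    (∀ (p : ℝ) (q : ℕ), 1 ≤ p → p ≤ q →
      ∀ (S : Type u) [MeasurableSpace S] (μ : Measure S) (Ω : Type v) [MeasurableSpace Ω]
        (ν : Measure Ω) [SFinite ν] (n : ℕ) (f : Fin n → S × Ω → ℝ), (∀ i, Measurable (f i)) →
      ∀ N : EuclideanSpace ℝ (Fin n) → ℝ≥0∞, (∀ x, N x =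
          (∫⁻ s, (∫⁻ ω, ENNReal.ofReal |∑ i, x i * f i (s, ω)| ∂ν) ^ p ∂μ) ^ (1 / p)) →
        (∀ x, N x ≠ ⊤) → (∀ x, x ≠ 0 → N x ≠ 0) →
        20 * q * 5 ^ q * Real.log (20 * q * 5 ^ q) ≤ n →
          ∃ x < (2 : ℝ) ^ n, CoveredBy {x | (N x).toReal ≤ 1} x) := by
  refine ⟨?_, ?_⟩
  · intro c γ ε β hc0 hc1 hε0 hε1 hβ hβ1 X _ _ hX n K hK b g hb hgb
    obtain ⟨Ω, _, ρ, f, ℓ, hρ, hgain, hf, hfin, hdef, hℓ, rfl⟩ := hK
    have hρ' : FN ρ := ⟨hρ.mono, hρ.add_le, hρ.smul⟩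
    obtain ⟨hγ0, hγ1, hG⟩ := gain_conv hc0 hc1 hρ' hgain
    have hX' : Pool.Agent.Helper31.L1.Flat X (1 - c / 2) ε := by
      intro x h hxh
      have := hX x h hxh
      linarith
    have hβ0 : 0 < β := by linarith
    have hb2 : 2 - γ ≤ b := by
      have h1 : 1 - γ ≤ (1 - γ) / β := by
        rw [le_div_iff₀ hβ0]
        nlinarith
      linarith
    have h := cover_body hρ' (b := b) (c := c) (σ := 2 / 5) hε0 hε1 hX' hβ hβ1 hc0
      hc1 (by linarith) (by norm_num) (by norm_num) (by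
        have : (1 : ℝ) / (1 - 2 / 5) = 5 / 3 := by norm_num
        rw [this]
        linarith) hγ0 (by linarith) hG hb.ge f hf hfin hdef ℓ hℓ
    refine ⟨h.1, ?_, ?_⟩
    · have h1 := h.2
      have h2 : 12 / dd (ε * β) n = 12 * (48 / (ε * β)) ^ n * ((n + 1).factorial : ℝ) ^ 2 := by
        have h3 : 0 < ε * β := by positivity
        rw [dd_eq, div_pow]
        have h4 : (0 : ℝ) < ((n + 1).factorial : ℝ) := by positivity
        field_simp
      rw [bl, h2] at h1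
      exact h1
    · intro hg0 hn
      have hb3 : b = 2 - g := by linarith
      rw [hb3] at h
      exact ⟨_, bl_lt hε0 hε1 hβ hβ1 hg0 (by linarith) hn, h.2⟩
  · intro p q hp hpq S _ μ Ω _ ν _ n f hf N hN hfin hdef hn
    have hq1 : (1 : ℝ) ≤ q := by linarith
    have hq : 1 ≤ q := by exact_mod_cast hq1
    obtain ⟨ρ, hρdef, hρ, hρs⟩ : ∃ ρ : (S × Ω → ℝ≥0∞) → ℝ≥0∞,
        (ρ = fun g => (∫⁻ s, (∫⁻ ω, g (s, ω) ∂ν) ^ p ∂μ) ^ (1 / p)) ∧ FN ρ ∧ Super q ρ :=
      ⟨_, rfl, mixed μ ν hp hpq⟩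
    have hNe : ∀ x : EuclideanSpace ℝ (Fin n),
        ρ (fun ω => ENNReal.ofReal ‖∑ i, x i • f i ω‖) = N x := by
      intro x
      rw [hN, hρdef]
      simp only [smul_eq_mul, Real.norm_eq_abs]
    have hflat : Pool.Agent.Helper31.L1.Flat ℝ (1 - 1 / 2) 1 := by
      intro x h hxh
      simp only [Real.norm_eq_abs, one_mul] at hxh ⊢
      have h1 : |x + h| + |x - h| = 2 * |x| := by
        rcases abs_cases x with ⟨h1, h2⟩ | ⟨h1, h2⟩ <;> rcases abs_cases h with ⟨h3, h4⟩ | ⟨h3, h4⟩ <;>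
          rcases abs_cases (x + h) with ⟨h5, h6⟩ | ⟨h5, h6⟩ <;>
          rcases abs_cases (x - h) with ⟨h7, h8⟩ | ⟨h7, h8⟩ <;> linarith
      rw [h1]
      have := abs_nonneg h
      linarith
    obtain ⟨hγ0, hγ1, hG⟩ := gain_conv (γ := (1 / 5) ^ q / q) zero_le_one le_rfl hρ
      (Or.inr ⟨q, hq, rfl, hρs⟩)
    have h := cover_body hρ (θ := 1 - 1 / 2) (ε := 1) (β := 1) (b := 2 - (1 / 5) ^ q / q) (c := 1)
      (σ := 2 / 5) one_pos le_rfl hflat (by norm_num) le_rfl zero_le_one le_rfl (by norm_num)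
      (by norm_num) (by norm_num) (by
        have : (1 : ℝ) / (1 - 2 / 5) = 5 / 3 := by norm_num
        rw [this]
        linarith) hγ0 (by linarith) hG (by linarith) f (fun i => (hf i).stronglyMeasurable)
      (fun x => by rw [hNe]; exact hfin x) (fun x hx => by rw [hNe]; exact hdef x hx) 0
      (fun x => by simp)
    simp only [hNe, LinearMap.zero_apply, add_zero] at h
    refine ⟨_, bl_lt (g := (1 / 5) ^ q / q) one_pos le_rfl (by norm_num) le_rfl (by positivity)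
      hγ1 ?_, h.2⟩
    have e : 20 / ((1 / 5 : ℝ) ^ q / q) = 20 * q * 5 ^ q := by
      rw [one_div, inv_pow]
      field_simp
    rw [mul_one, e]
    exact hn

end Pool.Agent.Results.MP_eba1ef_gt.SubspacesOfLattices
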